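import Pool.Agent.MP_ed9623_an.H77.SpecW

/-! The test field of the difference quotient method for the stationary system. -/

open MeasureTheory Filter Topology Set
open scoped ContDiff

namespace Pool.Agent.MP_ed9623_an.H77

open H64

namespace L1b

variable {f g m k : P → ℝ} {c c' K K' h R : ℝ} {γ : ℝ → ℝ} {d : Fin 2 → P → ℝ}

/-- Smooth multipliers with bounds for the function and its first derivatives. -/
structure Mu (m : P → ℝ) (c : ℝ) : Prop where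
  sm : ContDiff ℝ ∞ m
  b : ∀ p, |m p| ≤ c
  d : ∀ i p, |pd (ee i) m p| ≤ c

/-- Functions in `H¹` with bounds. -/
def W (f : P → ℝ) (K : ℝ) : Prop :=
  M2 f ∧ nm f ≤ K ∧ ∀ i, ∃ g, M2 g ∧ nm g ≤ K ∧ WD univ (ee i) f g

theorem bm (hf : M2 f) (hm : Continuous m) (hc : ∀ p, |m p| ≤ c) (hK : nm f ≤ K) :
    M2 (fun p => m p * f p) ∧ nm (fun p => m p * f p) ≤ c * K :=
  have c0 : 0 ≤ c := (abs_nonneg _).trans (hc 0)
  ⟨hf.bmul hm.aestronglyMeasurable (Eventually.of_forall hc),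
    (nm_bmul hf c0 (Eventually.of_forall hc)).trans (mul_le_mul_of_nonneg_left hK c0)⟩

theorem ad (hf : M2 f ∧ nm f ≤ K) (hg : M2 g ∧ nm g ≤ K') :
    M2 (fun p => f p + g p) ∧ nm (fun p => f p + g p) ≤ K + K' :=
  ⟨hf.1.add hg.1, (nm_add_le hf.1 hg.1).trans (add_le_add hf.2 hg.2)⟩

theorem Mu.mono (hm : Mu m c) (hc : c ≤ c') : Mu m c' :=
  ⟨hm.sm, fun p => (hm.b p).trans hc, fun i p => (hm.d i p).trans hc⟩

theorem mu_test {O : Set P} (hk : Test O k) : ∃ c, 0 ≤ c ∧ Mu k c := by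
  obtain ⟨a, a0, ha⟩ := hk.bd
  obtain ⟨b, b0, hb⟩ := (hk.pd (ee 0)).bd
  obtain ⟨c, c0, hc⟩ := (hk.pd (ee 1)).bd
  refine ⟨a + b + c, by positivity, hk.1, fun p => (ha p).trans (by linarith), ?_⟩
  rw [Fin.forall_fin_two]
  exact ⟨fun p => (hb p).trans (by linarith), fun p => (hc p).trans (by linarith)⟩

theorem mu_of (hγ : Gam γ) (a : ∀ y, |γ y| ≤ c) (b : ∀ y, |deriv γ y| ≤ c) :
    Mu (fun p => γ p.1) c := by
  refine ⟨hγ.smP, fun p => a _, ?_⟩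
  rw [Fin.forall_fin_two]
  refine ⟨fun p => by rw [hγ.pd0]; exact b _, fun p => ?_⟩
  rw [hγ.pd1, abs_zero]
  exact (abs_nonneg _).trans (a 0)

theorem gam_sh (hγ : Gam γ) (h : ℝ) : Gam fun y => γ (y + h) :=
  ⟨hγ.sm.comp (contDiff_id.add contDiff_const), hγ.cs.comp_homeomorph (Homeomorph.addRight h)⟩

theorem mu_gam (hγ : Gam γ) : ∃ c, 0 ≤ c ∧ ∀ h, Mu (fun p => γ (p.1 + h)) c ∧
    Mu (fun p => γ (p.1 + h) - γ p.1) (c * |h|) := by
  obtain ⟨a, a0, ha⟩ := hγ.bd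
  obtain ⟨b, b0, hb⟩ := hγ.deriv.bd
  obtain ⟨c, c0, hc⟩ := hγ.lip
  obtain ⟨e, e0, he⟩ := hγ.deriv.lip
  refine ⟨a + b + c + e, by positivity, fun h => ⟨mu_of (gam_sh hγ h)
    (fun y => (ha _).trans (by linarith)) fun y => ?_, mu_of (γ := fun y => γ (y + h) - γ y)
      ⟨(gam_sh hγ h).sm.sub hγ.sm, (gam_sh hγ h).cs.sub hγ.cs⟩
      (fun y => (hc _ _).trans (by gcongr; linarith)) fun y => ?_⟩⟩
  · rw [deriv_comp_add_const]
    exact (hb _).trans (by linarith)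
  · rw [(((gam_sh hγ h).hasDerivAt y).fun_sub (hγ.hasDerivAt y)).deriv, deriv_comp_add_const]
    exact (he _ _).trans (by gcongr; linarith)

theorem Mu.dd (hm : Mu m c) (hγ : Gam γ) (hg : ∀ y, |deriv γ y| ≤ c') (i : Fin 2) :
    Continuous (dd γ i m) ∧ ∀ p, |dd γ i m p| ≤ (1 + c') * c := by
  have c0 : 0 ≤ c := (abs_nonneg _).trans (hm.b 0)
  have c1 : 0 ≤ c' := (abs_nonneg _).trans (hg 0)
  revert i
  rw [Fin.forall_fin_two]
  refine ⟨⟨(sm_pd hm.sm _).continuous.sub (hγ.deriv.smP.continuous.mul (sm_pd hm.sm _).continuous),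
    fun p => ?_⟩, (sm_pd hm.sm _).continuous, fun p => (hm.d 1 p).trans (by nlinarith)⟩
  rw [dd0]
  refine (abs_sub _ _).trans ?_
  rw [abs_mul, add_mul, one_mul]
  exact add_le_add (hm.d 0 p) (mul_le_mul (hg _) (hm.d 1 p) (abs_nonneg _) c1)

theorem h1_mul (hγ : Gam γ) (hm : Mu m c) (hf : H1 γ f d) :
    H1 γ (fun p => m p * f p) fun i p => m p * d i p + dd γ i m p * f p := by
  have m0 := (hf.md 0).add ((hf.md 1).gmul hγ.deriv)
  have a : ∀ {g}, M2 g → M2 fun p => m p * g p := fun hg => (bm hg hm.sm.continuous hm.b le_rfl).1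
  have b : ∀ i, M2 fun p => pd (ee i) m p * f p := fun i =>
    (bm hf.m (sm_pd hm.sm _).continuous (hm.d i) le_rfl).1
  refine (H1O.of_wd hγ (a hf.m) ((a m0).add (b 0)) ((a (hf.md 1)).add (b 1))
    ((hf.wd0 hγ).smul hf.m m0 hm.sm) (hf.wd1.smul hf.m (hf.md 1) hm.sm)).congr EventuallyEq.rfl
    fun i => Eventually.of_forall fun p => ?_
  fin_cases i
  · simp [dd0]; ring
  · simp [dd1]

theorem W.mono (hf : W f K) (hK : K ≤ K') : W f K' :=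
  ⟨hf.1, hf.2.1.trans hK, fun i => (hf.2.2 i).imp fun _ a => ⟨a.1, a.2.1.trans hK, a.2.2⟩⟩

theorem W.add (hf : W f K) (hg : W g K') : W (fun p => f p + g p) (K + K') := by
  refine ⟨hf.1.add hg.1, (ad ⟨hf.1, hf.2.1⟩ ⟨hg.1, hg.2.1⟩).2, fun i => ?_⟩
  obtain ⟨f', a, b, c⟩ := hf.2.2 i
  obtain ⟨g', a', b', c'⟩ := hg.2.2 i
  exact ⟨_, a.add a', (ad ⟨a, b⟩ ⟨a', b'⟩).2, c.add c' hf.1 a hg.1 a'⟩

theorem W.cmul (hf : W f K) (t : ℝ) : W (fun p => t * f p) (|t| * K) := by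
  refine ⟨hf.1.cmul t, ?_, fun i => ?_⟩
  · rw [nm_cmul]; exact mul_le_mul_of_nonneg_left hf.2.1 (abs_nonneg t)
  obtain ⟨f', a, b, c⟩ := hf.2.2 i
  exact ⟨_, a.cmul t, by rw [nm_cmul]; exact mul_le_mul_of_nonneg_left b (abs_nonneg t), c.cmul t⟩

theorem W.sub (hf : W f K) (hg : W g K') : W (fun p => f p - g p) (K + K') := by
  simpa [sub_eq_add_neg] using hf.add (hg.cmul (-1))

theorem W.mul (hf : W f K) (hm : Mu m c) : W (fun p => m p * f p) (2 * c * K) := by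
  have a := bm hf.1 hm.sm.continuous hm.b hf.2.1
  have z := (nm_nonneg _).trans a.2
  refine ⟨a.1, a.2.trans (by linarith), fun i => ?_⟩
  obtain ⟨f', a', b', c'⟩ := hf.2.2 i
  have e := ad (bm a' hm.sm.continuous hm.b b') (bm hf.1 (sm_pd hm.sm _).continuous (hm.d i) hf.2.1)
  exact ⟨_, e.1, e.2.trans_eq (by ring), c'.smul hf.1 a' hm.sm⟩

theorem W.av (hA : AvS) (hf : W f K) (h : ℝ) : W (av h f) (|h| * K) := by
  obtain ⟨⟨a, b⟩, -, c, -⟩ := hA h f hf.1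
  refine ⟨a, b.trans (mul_le_mul_of_nonneg_left hf.2.1 (abs_nonneg h)), fun i => ?_⟩
  obtain ⟨f', a', b', c'⟩ := hf.2.2 i
  exact ⟨_, (hA h f' a').1.1, (hA h f' a').1.2.trans (mul_le_mul_of_nonneg_left b' (abs_nonneg h)),
    c _ _ a' c'⟩

theorem W.dl (hA : AvS) (hf : W f K) (h : ℝ) : M2 (dl h f) ∧ nm (dl h f) ≤ |h| * K := by
  obtain ⟨f', a', b', c'⟩ := hf.2.2 0
  exact ⟨hf.1.dl h, ((hA h f hf.1).2.2.2.1 f' a' c').2.trans
    (mul_le_mul_of_nonneg_left b' (abs_nonneg h))⟩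

theorem W.of_h1 (hγ : Gam γ) (hg : ∀ y, |deriv γ y| ≤ c) (hf : H1 γ f d) (a : nm f ≤ R)
    (b : ∀ i, nm (d i) ≤ R) : W f ((1 + c) * R) := by
  have e := bm (hf.md 1) hγ.deriv.smP.continuous (fun p => hg p.1) (b 1)
  have z := (nm_nonneg _).trans e.2
  refine ⟨hf.m, a.trans (by linarith), ?_⟩
  rw [Fin.forall_fin_two]
  exact ⟨⟨_, (ad ⟨hf.md 0, b 0⟩ e).1, (ad ⟨hf.md 0, b 0⟩ e).2.trans_eq (by ring), hf.wd0 hγ⟩,
    _, hf.md 1, (b 1).trans (by linarith), hf.wd1⟩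

theorem W.h1 (hγ : Gam γ) (hg : ∀ y, |deriv γ y| ≤ c) (hf : W f K) :
    ∃ d, H1 γ f d ∧ ∀ i, nm (d i) ≤ (1 + c) * K := by
  obtain ⟨g0, a, b, w⟩ := hf.2.2 0
  obtain ⟨g1, a', b', w'⟩ := hf.2.2 1
  have e := bm a' hγ.deriv.smP.continuous (fun p => hg p.1) b'
  have z := (nm_nonneg _).trans e.2
  refine ⟨_, H1O.of_wd hγ hf.1 a a' w w', ?_⟩
  rw [Fin.forall_fin_two]
  exact ⟨(nm_sub_le a e.1).trans (by linarith [e.2]), b'.trans (by linarith)⟩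

theorem pd_pow (hk : ContDiff ℝ ∞ k) (n : ℕ) (e p : P) :
    pd e (fun p => k p ^ (n + 1)) p = (n + 1) * k p ^ n * pd e k p := by
  refine HD.pd_eq ?_ (sm_diff (hk.pow _) p)
  have := HasDerivAt.fun_pow (HD.of_diff (e := e) (sm_diff hk p)) (n + 1)
  simpa [HD] using this

theorem test_pow {O : Set P} (hk : Test O k) (n : ℕ) : Test O fun p => k p ^ (n + 1) := by
  simpa only [pow_succ] using hk.smul (hk.1.pow n)

theorem cube (hγ : Gam γ) (hg : ∀ y, |deriv γ y| ≤ c) (hk : Test univ k) (hm : Mu k c)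
    (hf : W f K) : ∃ e : Fin 2 → P → ℝ, H1 γ (fun p => k p ^ 3 * f p) (fun i p => k p ^ 2 * e i p) ∧
      ∀ i, M2 (e i) ∧ nm (e i) ≤ 4 * (1 + c) * c * K := by
  obtain ⟨d, hd, b⟩ := hf.h1 hγ hg
  refine ⟨fun i p => k p * d i p + 3 * (dd γ i k p * f p), (hd.cut hγ (test_pow hk 2)).congr
    EventuallyEq.rfl fun i => Eventually.of_forall fun p => ?_, fun i => ?_⟩
  · fin_cases i
    · simp [dd0, pd_pow hk.1]; ring
    · simp [dd1, pd_pow hk.1]; ring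
  · have e := bm hf.1 (hm.dd hγ hg i).1 (hm.dd hγ hg i).2 hf.2.1
    have e' := bm (hd.md i) hk.ct hm.b (b i)
    refine ⟨e'.1.add (e.1.cmul 3), (nm_add_le e'.1 (e.1.cmul 3)).trans ?_⟩
    rw [nm_cmul, abs_of_pos three_pos]
    linarith [e.2, e'.2]

theorem lim {a dζ : Fin 2 → Fin 2 → P → ℝ} {F ζ : Fin 2 → P → ℝ} (ha : ∀ j i, M2 (a j i))
    (hd : ∀ j i, M2 (dζ j i)) (hF : ∀ j, M2 (F j)) (hζ : ∀ j, M2 (ζ j))
    (h : ∀ ε : ℝ, 0 < ε → ∃ (ψ : Fin 2 → P → ℝ) (dψ : Fin 2 → Fin 2 → P → ℝ),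
      (∀ j, M2 (ψ j) ∧ nm (fun p => ζ j p - ψ j p) ≤ ε ∧
        ∀ i, M2 (dψ j i) ∧ nm (fun p => dζ j i p - dψ j i p) ≤ ε) ∧
      ∑ j, ∑ i, ∫ p, a j i p * dψ j i p = ip F ψ) :
    ∑ j, ∑ i, ∫ p, a j i p * dζ j i p = ip F ζ := by
  have key : ∀ {a b b' : P → ℝ} {ε : ℝ}, M2 a → M2 b → M2 b' → nm (fun p => b p - b' p) ≤ ε →
      |(∫ p, a p * b p) - ∫ p, a p * b' p| ≤ nm a * ε := fun ha hb hb' he => by
    rw [← integral_sub (ha.int_mul hb) (ha.int_mul hb')]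
    simp only [← mul_sub]
    exact (abs_int_le ha (hb.sub hb')).trans (mul_le_mul_of_nonneg_left he (nm_nonneg _))
  set M := nm (a 0 0) + nm (a 0 1) + nm (a 1 0) + nm (a 1 1) + nm (F 0) + nm (F 1) with hM
  have M0 : 0 < M + 1 := by
    linarith [nm_nonneg (a 0 0), nm_nonneg (a 0 1), nm_nonneg (a 1 0), nm_nonneg (a 1 1),
      nm_nonneg (F 0), nm_nonneg (F 1)]
  refine eq_of_forall_dist_le fun ε hε => ?_
  obtain ⟨ψ, dψ, h1, h2⟩ := h (ε / (M + 1)) (div_pos hε M0)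
  have k1 := fun j i => abs_le.1 (key (ha j i) (hd j i) ((h1 j).2.2 i).1 ((h1 j).2.2 i).2)
  have k2 := fun j => abs_le.1 (key (hF j) (hζ j) (h1 j).1 (h1 j).2.1)
  have e : (M + 1) * (ε / (M + 1)) = ε := by field_simp
  have e0 := div_pos hε M0
  simp only [ip, Fin.sum_univ_two] at h2 ⊢
  rw [Real.dist_eq, abs_le, hM] at *
  constructor <;> linarith [k1 0 0, k1 0 1, k1 1 0, k1 1 1, k2 0, k2 1]

/-- The difference of the stream function. -/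
noncomputable def eta (γ : ℝ → ℝ) (h : ℝ) (u : Fin 2 → P → ℝ) : P → ℝ :=
  av h fun p => u 1 p - deriv γ p.1 * u 0 p

noncomputable def bb (γ : ℝ → ℝ) (h : ℝ) : P → ℝ := fun p => deriv γ (p.1 + h) - deriv γ p.1

noncomputable def ww (γ : ℝ → ℝ) (k : P → ℝ) (h : ℝ) (u : Fin 2 → P → ℝ) : Fin 2 → P → ℝ :=
  ![fun p => -4 * (pd (ee 1) k p * eta γ h u p), fun p => 4 * (pd (ee 0) k p * eta γ h u p
    - deriv γ (p.1 + h) * (pd (ee 1) k p * eta γ h u p)) - k p * (bb γ h p * u 0 p)]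

noncomputable def ZZ (γ : ℝ → ℝ) (k : P → ℝ) (h : ℝ) (u : Fin 2 → P → ℝ) (j : Fin 2) : P → ℝ :=
  fun p => (k p ^ 2) ^ 2 * dl h (u j) p + k p ^ 3 * ww γ k h u j p

/-- The test field. -/
noncomputable def zt (γ : ℝ → ℝ) (k : P → ℝ) (h : ℝ) (u : Fin 2 → P → ℝ) : Fin 2 → P → ℝ :=
  ![dl (-h) (ZZ γ k h u 0), fun p => dl (-h) (ZZ γ k h u 1) p + bb γ h p * ZZ γ k h u 0 p]

/-- Its stream function. -/
noncomputable def th (γ : ℝ → ℝ) (k : P → ℝ) (h : ℝ) (u : Fin 2 → P → ℝ) : P → ℝ :=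
  dl (-h) fun p => k p ^ 4 * eta γ h u p

/-- Bounds for the cut-off and the shear. -/
structure Dat (γ : ℝ → ℝ) (k : P → ℝ) (c : ℝ) : Prop where
  c0 : 0 ≤ c
  g : ∀ y, |deriv γ y| ≤ c
  k0 : Mu k c
  k1 : ∀ i, Mu (pd (ee i) k) c
  k2 : ∀ p, |k p ^ 2| ≤ c
  sh : ∀ h, Mu (fun p => deriv γ (p.1 + h)) c
  bb : ∀ h, Mu (bb γ h) (c * |h|)

theorem exists_dat (hγ : Gam γ) (hk : Test univ k) : ∃ c, Dat γ k c := by
  obtain ⟨a, a0, ha⟩ := mu_gam hγ.deriv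
  obtain ⟨b, b0, hb⟩ := mu_test hk
  obtain ⟨c, c0, hc⟩ := mu_test (hk.pd (ee 0))
  obtain ⟨e, e0, he⟩ := mu_test (hk.pd (ee 1))
  obtain ⟨t, t0, ht⟩ := (test_pow hk 1).bd
  refine ⟨a + b + c + e + t, by positivity, fun y => ?_, hb.mono (by linarith), ?_,
    fun p => (ht p).trans (by linarith), fun h => (ha h).1.mono (by linarith),
    fun h => (ha h).2.mono (by gcongr; linarith)⟩
  · have := (ha 0).1.b (y, 0)
    rw [add_zero] at this
    exact this.trans (by linarith)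
  · rw [Fin.forall_fin_two]
    exact ⟨hc.mono (by linarith), he.mono (by linarith)⟩

variable {u : Fin 2 → P → ℝ} {du : Fin 2 → Fin 2 → P → ℝ}

theorem w_ww (hA : AvS) (hγ : Gam γ) (D : Dat γ k c) (hu : VF γ u du) (hn : Nb R u du) (h : ℝ)
    (j : Fin 2) :
    W (ww γ k h u j) ((1 + c) * ((1 + 2 * c) * (8 * c + 16 * c ^ 2) + 4 * c ^ 2) * (R * |h|)) := by
  have c0 := D.c0
  have R0 : 0 ≤ R := (nm_nonneg _).trans (hn 0).1
  have a := fun j => W.of_h1 hγ D.g (hu.h1 j) (hn j).1 (hn j).2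
  have g0 : Mu (fun p => deriv γ p.1) c := by simpa only [add_zero] using D.sh 0
  have e : W (eta γ h u) _ := ((a 1).sub ((a 0).mul g0)).av hA h
  revert j
  rw [Fin.forall_fin_two]
  refine ⟨((e.mul (D.k1 1)).cmul (-4)).mono ?_, ((((e.mul (D.k1 0)).sub
    ((e.mul (D.k1 1)).mul (D.sh h))).cmul 4).sub (((a 0).mul (D.bb h)).mul D.k0)).mono ?_⟩
  · rw [abs_neg, abs_of_pos four_pos]
    have : 0 ≤ (1 + c) * ((1 + 2 * c) * (16 * c ^ 2) + 4 * c ^ 2) * (R * |h|) := by positivity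
    linarith
  · rw [abs_of_pos four_pos]
    exact le_of_eq (by ring)

theorem h1_th (hA : AvS) (hγ : Gam γ) (hk : Test univ k) (hu : VF γ u du) (h : ℝ) :
    H1 γ (th γ k h u) ![zt γ k h u 1, fun p => -zt γ k h u 0 p] := by
  have u0 := hu.h1 0
  have u1 := hu.h1 1
  have mB : M2 fun p => u 1 p - deriv γ p.1 * u 0 p := u1.m.sub (u0.m.gmul hγ.deriv)
  have mA := ((u0.md 0).add ((u0.md 1).gmul hγ.deriv)).neg
  have w1 : WD univ (ee 1) (fun p => u 1 p - deriv γ p.1 * u 0 p)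
      fun p => -(du 0 0 p + deriv γ p.1 * du 0 1 p) := by
    have := u0.wd1.smul u0.m (u0.md 1) hγ.deriv.smP
    simp only [hγ.deriv.pd1, zero_mul, add_zero] at this
    refine (u1.wd1.sub this u1.m (u1.md 1) (u0.m.gmul hγ.deriv) ((u0.md 1).gmul hγ.deriv)).congr
      (Eventually.of_forall fun _ _ => rfl) (hu.dv.mono fun p hp _ => by linarith)
  obtain ⟨⟨me, -⟩, e0, e1, -⟩ := hA h _ mB
  have e2 : WD univ (ee 1) (eta γ h u) (dl h fun p => -u 0 p) :=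
    (e1 _ _ mA w1).congr (Eventually.of_forall fun _ _ => rfl)
      (((hA h _ u0.m.neg).2.2.2.1 _ mA (u0.wd0 hγ).neg).1.mono fun p hp _ => hp)
  have k4 := test_pow hk 3
  have m0 := ((mB.dl h).tmul k4).add (me.tmul (k4.pd (ee 0)))
  have m1 := ((u0.m.neg.dl h).tmul k4).add (me.tmul (k4.pd (ee 1)))
  refine (H1O.of_wd hγ ((me.tmul k4).dl (-h)) (m0.dl (-h)) (m1.dl (-h))
    ((e0.smul me (mB.dl h) k4.1).dl (me.tmul k4) m0 (-h))
    ((e2.smul me (u0.m.neg.dl h) k4.1).dl (me.tmul k4) m1 (-h))).congr EventuallyEq.rfl ?_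
  rw [Fin.forall_fin_two]
  refine ⟨Eventually.of_forall fun p => ?_, Eventually.of_forall fun p => ?_⟩
  · simp only [Matrix.cons_val_zero, Matrix.cons_val_one, zt, ZZ, ww, bb, eta, dl, pd_pow hk.1,
      neg_add_cancel_right]
    push_cast
    ring
  · simp only [Matrix.cons_val_zero, Matrix.cons_val_one, zt, ZZ, ww, bb, eta, dl, pd_pow hk.1,
      neg_add_cancel_right]
    push_cast
    ring

theorem van_th (hA : AvS) (hγ : Gam γ) (hu : VF γ u du) {σ r r₀ r₁ : ℝ} (hσ : σ ≤ r)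
    (hk : ∀ p, p ∉ Q r₀ → k p = 0) (h0 : r₀ + |h| ≤ r₁) (h1 : r₁ ≤ r)
    (hv : ∀ j, Van (Q r \ Qp σ r) (u j)) : Van (Qp σ r₁)ᶜ (th γ k h u) := by
  have mB : M2 fun p => u 1 p - deriv γ p.1 * u 0 p := (hu.h1 1).m.sub ((hu.h1 0).m.gmul hγ.deriv)
  have v1 : Van (Bx (-r + |h|) (r - |h|) (-r) σ) (eta γ h u) :=
    (hA h _ mB).2.2.2.2 _ _ _ _ (((hv 1).sub ((hv 0).smul _)).mono fun p hp =>
      ⟨⟨hp.1, hp.2.1, hp.2.2.trans_le hσ⟩, fun a => lt_asymm hp.2.2 a.2⟩)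
  have z := abs_nonneg h
  have v2 : Van (Qp σ r₀)ᶜ fun p => k p ^ 4 * eta γ h u p := by
    filter_upwards [v1, measure_eq_zero_iff_ae_notMem.1 (null_line σ)] with p a b hp
    by_cases hq : p ∈ Q r₀
    · have l : p.2 < σ := lt_of_le_of_ne (not_lt.1 fun a => hp ⟨hq, a⟩) b
      rw [a ⟨⟨by linarith [hq.1.1], by linarith [hq.1.2]⟩, by linarith [hq.2.1], l⟩, mul_zero]
    · simp [hk p hq]
  refine Van.sub ((v2.sh (-h)).mono fun p hp hq => hp ⟨?_, hq.2⟩)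
    (v2.mono (compl_subset_compl.2 (Qp_mono (by linarith))))
  have a := le_abs_self h
  have b := neg_abs_le h
  obtain ⟨⟨⟨q1, q2⟩, q3, q4⟩, -⟩ := hq
  simp only at q1 q2 q3 q4
  exact ⟨⟨by linarith, by linarith⟩, by linarith, by linarith⟩

theorem arith {a b x y : ℝ} (h : x ≤ a * y) (hab : a ≤ b) (hy : 0 ≤ y) : x ≤ b * y :=
  h.trans (mul_le_mul_of_nonneg_right hab hy)

end L1b

open L1b in
theorem rowL1b : OfL1b := by
  intro hA hL hD hT γ σ r r' hγ hσ r0 hr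
  obtain ⟨k, hk', -, k1⟩ := exists_cut (K := Metric.closedBall 0 r') (isCompact_closedBall _ _)
    (isOpen_Q (r' + (r - r') / 3)) (by
      rw [Q_eq_ball]; exact Metric.closedBall_subset_ball (by linarith))
  have hk := hk'.top
  obtain ⟨c, D⟩ := exists_dat hγ hk
  have c0 := D.c0
  have hχ : Test univ fun p => k p ^ 2 := test_pow hk 1
  obtain ⟨C, C0, hC⟩ := hT γ _ hγ hχ
  obtain ⟨K, hK⟩ : ∃ K, K = (1 + c) * ((1 + 2 * c) * (8 * c + 16 * c ^ 2) + 4 * c ^ 2) := ⟨_, rfl⟩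
  have K0 : 0 ≤ K := by rw [hK]; positivity
  obtain ⟨N, hN⟩ : ∃ N, N = 1 + 4 * (1 + c) * c * K := ⟨_, rfl⟩
  have N1 : 1 ≤ N := by rw [hN]; exact le_add_of_nonneg_right (by positivity)
  obtain ⟨E, hE⟩ : ∃ E, E = c * c * (1 + c) + c * c * K := ⟨_, rfl⟩
  have E0 : 0 ≤ E := by rw [hE]; positivity
  have p1 : 0 ≤ C * N := by positivity
  have p2 : 0 ≤ c * (c + c * (C * N)) := by positivity
  have p3 : 0 ≤ c * E := by positivity
  have p4 : 0 ≤ c * c * E := by positivity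
  refine ⟨fun p => k p ^ 2, hχ, fun p hp => ?_, C * N + c * (c + c * (C * N)) + c * E + c * c * E,
    (r - r') / 3, by positivity, by linarith, fun ϑ R h u du f hP hh => ?_⟩
  · rw [Q_eq_ball] at hp
    simp only [k1.self_of_nhdsSet p (Metric.ball_subset_closedBall hp), one_pow]
  have hu := hP.vf
  have R0 : 0 ≤ R := (nm_nonneg _).trans (hP.nb 0).1
  have z := abs_nonneg h
  have hw := fun j => hK ▸ w_ww hA hγ D hu hP.nb h j
  choose e he be using fun j => cube hγ D.g hk D.k0 (hw j)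
  choose ρ ς b1 b2 b3 b4 using fun j => hC h (N * R) (u j) _ (du j) (e j) (hu.h1 j)
    (fun i => ((hP.nb j).2 i).trans (le_mul_of_one_le_left R0 N1)) (he j) fun i =>
      ⟨(be j i).1, (be j i).2.trans (by rw [hN]; nlinarith [mul_nonneg R0 z])⟩
  obtain ⟨S, hS⟩ : ∃ S, S = ∑ m, ∑ l, nm fun p => k p ^ 2 * dl h (du m l) p := ⟨_, rfl⟩
  have s1 : ∀ m, ∑ l, nm (fun p => k p ^ 2 * dl h (du m l) p) ≤ S := fun m => hS ▸
    Finset.single_le_sum (f := fun m => ∑ l, nm fun p => k p ^ 2 * dl h (du m l) p)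
      (fun _ _ => Finset.sum_nonneg fun _ _ => nm_nonneg _) (Finset.mem_univ m)
  have s2 : ∀ l, nm (fun p => k p ^ 2 * dl h (du 0 l) p) ≤ S := fun l =>
    (Finset.single_le_sum (f := fun l => nm fun p => k p ^ 2 * dl h (du 0 l) p)
      (fun _ _ => nm_nonneg _) (Finset.mem_univ l)).trans (s1 0)
  have S0 : 0 ≤ S := (nm_nonneg _).trans (s2 0)
  have y0 : 0 ≤ R * |h| := mul_nonneg R0 z
  have x0 : 0 ≤ |h| * (R * |h| + S) := by positivity
  have s3 : ∀ m, C * (|h| * (N * R * |h| + ∑ l, nm fun p => k p ^ 2 * dl h (du m l) p))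
      ≤ C * N * (|h| * (R * |h| + S)) := fun m => by
    rw [mul_assoc C N, mul_left_comm N]
    refine mul_le_mul_of_nonneg_left (mul_le_mul_of_nonneg_left ?_ z) C0
    nlinarith [s1 m]
  have bρ : ∀ j i, nm (ρ j i) ≤ C * N * (R * |h|) := fun j i => (b1 j i).2.2.1.trans_eq (by ring)
  have z0 : M2 (ZZ γ k h u 0) ∧ nm (ZZ γ k h u 0) ≤ E * (R * |h|) := by
    have a := (W.of_h1 hγ D.g (hu.h1 0) (hP.nb 0).1 (hP.nb 0).2).dl hA h
    have a1 := bm a.1 hχ.ct D.k2 a.2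
    have a2 := bm (hw 0).1 hk.ct D.k0.b (hw 0).2.1
    have := ad (bm a1.1 hχ.ct D.k2 a1.2) (bm a2.1 hχ.ct D.k2 a2.2)
    have e : ZZ γ k h u 0 = fun p => k p ^ 2 * (k p ^ 2 * dl h (u 0) p)
      + k p ^ 2 * (k p * ww γ k h u 0 p) := funext fun p => by simp only [ZZ]; ring
    rw [e, hE]
    exact ⟨this.1, this.2.trans_eq (by ring)⟩
  have z1 : ∀ i, M2 (fun p => (k p ^ 2) ^ 2 * dl h (du 0 i) p + k p ^ 2 * ρ 0 i p) ∧
      nm (fun p => (k p ^ 2) ^ 2 * dl h (du 0 i) p + k p ^ 2 * ρ 0 i p)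
        ≤ (c + c * (C * N)) * (R * |h| + S) := fun i => by
    have := ad (bm ((((hu.h1 0).md i).dl h).tmul hχ) hχ.ct D.k2 (s2 i))
      (bm (b1 0 i).1 hχ.ct D.k2 (bρ 0 i))
    simp only [← mul_assoc, ← sq] at this
    refine ⟨this.1, this.2.trans ?_⟩
    nlinarith [mul_nonneg c0 y0, mul_nonneg (mul_nonneg c0 p1) S0]
  have zb := bm z0.1 (D.bb h).sm.continuous (D.bb h).b z0.2
  have zd := fun i => ad (bm (z1 i).1 (D.bb h).sm.continuous (D.bb h).b (z1 i).2)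
    (bm z0.1 ((D.bb h).dd hγ D.g i).1 ((D.bb h).dd hγ D.g i).2 z0.2)
  have hs : 0 ≤ |h| * S := mul_nonneg z S0
  let ς' : Fin 2 → Fin 2 → P → ℝ := ![ς 0, fun i p => ς 1 i p + (bb γ h p
    * ((k p ^ 2) ^ 2 * dl h (du 0 i) p + k p ^ 2 * ρ 0 i p) + dd γ i (bb γ h) p * ZZ γ k h u 0 p)]
  have H : ∀ j, H1 γ (zt γ k h u j) fun i p =>
      dl (-h) (fun p => (k p ^ 2) ^ 2 * dl h (du j i) p + k p ^ 2 * ρ j i p) p + ς' j i p := by
    rw [Fin.forall_fin_two]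
    exact ⟨b3 0, ((b3 1).add (h1_mul hγ (D.bb h) (b2 0)) hγ).congr EventuallyEq.rfl fun i =>
      Eventually.of_forall fun p => add_assoc _ _ _⟩
  refine ⟨zt γ k h u, ρ, ς', fun j => ⟨(H j).m, ?_⟩, fun j i => ?_, ?_⟩
  · rw [← hS]
    revert j
    rw [Fin.forall_fin_two]
    refine ⟨arith ((b4 0).trans (s3 0)) (by linarith) x0,
      (ad ⟨(b3 1).m, (b4 1).trans (s3 1)⟩ zb).2.trans ?_⟩
    nlinarith [mul_nonneg p2 x0, mul_nonneg p4 x0, mul_nonneg p3 hs]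
  · rw [← hS]
    have q : M2 (ς' j i) ∧ nm (ς' j i)
        ≤ (C * N + c * (c + c * (C * N)) + c * E + c * c * E) * (|h| * (R * |h| + S)) := by
      revert j
      rw [Fin.forall_fin_two]
      have := ad ⟨(b1 1 i).2.1, (b1 1 i).2.2.2.trans (s3 1)⟩ (zd i)
      refine ⟨⟨(b1 0 i).2.1, arith ((b1 0 i).2.2.2.trans (s3 0)) (by linarith) x0⟩, this.1,
        this.2.trans ?_⟩
      nlinarith [mul_nonneg p4 hs, mul_nonneg p3 hs]
    exact ⟨(b1 j i).1, q.1, arith (bρ j i) (by linarith) y0, q.2⟩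
  have uu : ∀ i j, M2 fun p => u i p * u j p := fun i j =>
    (hL _ _ _ _ (hu.h1 i).m (((hu.h1 i).md 0).add (((hu.h1 i).md 1).gmul hγ.deriv)) (hu.h1 j).m
      ((hu.h1 j).md 1) ((hu.h1 i).wd0 hγ) (hu.h1 j).wd1).1
  refine lim (fun j i => ((hu.h1 j).md i).sub ((uu i j).cmul ϑ)) (fun j i => (H j).md i)
    (fun j => (hP.mf j).1) (fun j => (H j).m) fun ε hε => ?_
  obtain ⟨φ, hφ, a⟩ := (hD γ σ r (r' + 2 * ((r - r') / 3)) hγ (by linarith)).2 _ _ _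
    (h1_th hA hγ hk hu h) H (van_th hA hγ hu (by linarith) (fun _ => hk'.off) (by linarith)
      (by linarith) hP.van) ε hε
  refine ⟨perp γ φ, fun j i => dd γ i (perp γ φ j), fun j => ⟨(hφ.perp hγ j).m2, (a j).1,
    fun i => ⟨((hφ.perp hγ j).dd hγ i).m2, (a j).2 i⟩⟩, ?_⟩
  rw [← hP.eq φ hφ, di, tl, Finset.mul_sum, ← Finset.sum_sub_distrib]
  refine Finset.sum_congr rfl fun j _ => ?_
  rw [Finset.mul_sum, ← Finset.sum_sub_distrib]
  refine Finset.sum_congr rfl fun i _ => ?_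
  have m := ((hφ.perp hγ j).dd hγ i).m2
  rw [← integral_const_mul, ← integral_sub (((hu.h1 j).md i).int_mul m)
    (((uu i j).int_mul m).const_mul ϑ)]
  exact integral_congr_ae (Eventually.of_forall fun p => by ring)

end Pool.Agent.MP_ed9623_an.H77
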