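import Pool.Agent.MP_ed9623_an.H77.SpecW

/-! Traces on the line `s = 0`. -/

open MeasureTheory Filter Topology Set
open scoped ContDiff

namespace Pool.Agent.MP_ed9623_an.H77

open H64

namespace Zt

variable {f g f' g' φ : P → ℝ} {r : ℝ} {T T' : ℝ → ℝ}

theorem ae_ae {q : P → Prop} (h : ∀ᵐ p, q p) : ∀ᵐ y : ℝ, ∀ᵐ s : ℝ, q (y, s) :=
  Measure.ae_ae_of_ae_prod h

theorem ae_ae' {q : P → Prop} (h : ∀ᵐ p, q p) : ∀ᵐ s : ℝ, ∀ᵐ y : ℝ, q (y, s) :=
  Measure.ae_ae_of_ae_prod (p := fun p : ℝ × ℝ => q p.swap)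
    ((Measure.measurePreserving_swap (μ := (volume : Measure ℝ))
      (ν := (volume : Measure ℝ))).quasiMeasurePreserving.ae h)

theorem ae_fst {q : ℝ → Prop} (h : ∀ᵐ y, q y) : ∀ᵐ p : P, q p.1 :=
  (Measure.quasiMeasurePreserving_fst (μ := (volume : Measure ℝ)) (ν := (volume : Measure ℝ))).ae h

theorem slice (hg : M2 g) : ∀ᵐ y : ℝ, MemLp (fun s => g (y, s)) 2 volume := by
  have h : AEStronglyMeasurable g ((volume : Measure ℝ).prod (volume : Measure ℝ)) := hg.meas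
  filter_upwards [hg.int_prod.prod_right_ae, h.prodMk_left] with y a b
  exact (memLp_two_iff_integrable_sq b).2 a

theorem ii {k : ℝ → ℝ} (hk : MemLp k 2 volume) (a b : ℝ) : IntervalIntegrable k volume a b :=
  intervalIntegrable_iff.2 <|
    ((hk.locallyIntegrable (by norm_num)).integrableOn_isCompact isCompact_uIcc).mono_set
      uIoc_subset_uIcc

theorem cs {k : ℝ → ℝ} (hk : MemLp k 2 volume) {s c : ℝ} (hs : 0 < s) (hc : s ≤ c) :
    (∫ σ in (0 : ℝ)..s, k σ) ^ 2 ≤ s * ∫ σ in Ioo 0 c, k σ ^ 2 := by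
  have i2 : Integrable fun σ => k σ ^ 2 := (memLp_two_iff_integrable_sq hk.1).1 hk
  have h1 : ∫ σ in (0 : ℝ)..s, k σ ^ 2 ≤ ∫ σ in Ioo 0 c, k σ ^ 2 := by
    rw [intervalIntegral.integral_of_le hs.le, integral_Ioc_eq_integral_Ioo]
    exact setIntegral_mono_set i2.integrableOn (Eventually.of_forall fun _ => sq_nonneg _)
      (Ioo_subset_Ioo_right hc).eventuallyLE
  set I := ∫ σ in (0 : ℝ)..s, k σ with hI
  have h2 : 0 ≤ ∫ σ in (0 : ℝ)..s, (k σ ^ 2 - 2 * (I / s) * k σ + (I / s) ^ 2) :=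
    intervalIntegral.integral_nonneg hs.le fun σ _ => by nlinarith [sq_nonneg (k σ - I / s)]
  rw [intervalIntegral.integral_add (i2.intervalIntegrable.sub ((ii hk 0 s).const_mul _))
    intervalIntegrable_const, intervalIntegral.integral_sub i2.intervalIntegrable
    ((ii hk 0 s).const_mul _), intervalIntegral.integral_const_mul, intervalIntegral.integral_const,
    ← hI, smul_eq_mul, sub_zero] at h2
  have h3 : s * (2 * (I / s) * I - s * (I / s) ^ 2) = I ^ 2 := by field_simp; ring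
  nlinarith

theorem closed_ae {C : Set ℝ} (hC : IsClosed C) {a b : ℝ} (hab : a < b)
    (h : ∀ᵐ s, s ∈ Ioo a b → s ∈ C) : Icc a b ⊆ C := by
  rw [← closure_Ioo hab.ne]
  refine closure_minimal (fun s hs => ?_) hC
  by_contra hn
  have o : IsOpen (Ioo a b ∩ Cᶜ) := isOpen_Ioo.inter hC.isOpen_compl
  have z : volume (Ioo a b ∩ Cᶜ) = 0 :=
    measure_eq_zero_iff_ae_notMem.2 (h.mono fun x hx hx' => hx'.2 (hx hx'.1))
  exact (o.measure_pos volume ⟨s, hs, hn⟩).ne' z

theorem ae_const {q : Prop} {a b : ℝ} (hab : a < b) (h : ∀ᵐ s, s ∈ Ioo a b → q) : q := by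
  by_contra hn
  exact closed_ae isClosed_empty hab (h.mono fun s hs hs' => hn (hs hs')) (left_mem_Icc.2 hab.le)

theorem mem_Qp (hr : 0 < r) {y s : ℝ} : ((y, s) : P) ∈ Qp 0 r ↔ y ∈ Ioo (-r) r ∧ s ∈ Ioo 0 r := by
  rw [Qp_zero hr.le]; rfl

theorem ibp {k ψ ψ' : ℝ → ℝ} (hk : MemLp k 2 volume) (hψ : ContDiff ℝ ∞ ψ)
    (hψ' : ∀ s, HasDerivAt ψ (ψ' s) s) (hr : 0 < r) (h0 : ψ r = 0) (t : ℝ) :
    ∫ s in Ioo 0 r, ((t + ∫ σ in (0 : ℝ)..s, k σ) * ψ' s + k s * ψ s) = -(t * ψ 0) := by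
  have a1 : AbsolutelyContinuousOnInterval (fun s => t + ∫ σ in (0 : ℝ)..s, k σ) 0 r :=
    (contDiffOn_const (c := t)).absolutelyContinuousOnInterval.add
      ((ii hk 0 r).absolutelyContinuousOnInterval_intervalIntegral left_mem_uIcc)
  have a2 : AbsolutelyContinuousOnInterval ψ 0 r :=
    (hψ.of_le (by simp)).contDiffOn.absolutelyContinuousOnInterval
  have := a1.integral_deriv_mul_eq_sub a2
  rw [h0, intervalIntegral.integral_same, add_zero, mul_zero, zero_sub,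
    intervalIntegral.integral_of_le hr.le, integral_Ioc_eq_integral_Ioo] at this
  rw [← this]
  refine integral_congr_ae (ae_restrict_of_ae ?_)
  filter_upwards [_root_.LocallyIntegrable.ae_hasDerivAt_integral
    (hk.locallyIntegrable (by norm_num))] with s hs
  rw [((hs 0).const_add t).deriv, (hψ' s).deriv, add_comm]

theorem hd_snd (hφ : ContDiff ℝ ∞ φ) (y s : ℝ) :
    HasDerivAt (fun s => φ (y, s)) (pd (ee 1) φ (y, s)) s := by
  have h1 : HasDerivAt (fun s : ℝ => ((y, s) : P)) (ee 1) s :=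
    (hasDerivAt_const s y).prodMk (hasDerivAt_id s)
  exact (sm_diff hφ (y, s)).hasFDerivAt.comp_hasDerivAt s h1

theorem est (hg : M2 g) (hr : 0 < r) (h : Trc r f g T) (c : ℝ) :
    ∀ᵐ p : P, p ∈ Qp 0 r → p.2 ≤ c → (f p - T p.1) ^ 2 ≤ p.2 * slS 0 c g p.1 := by
  filter_upwards [h, ae_fst (slice hg)] with p a b hp hc
  rw [a hp, add_sub_cancel_left]
  exact cs b ((mem_Qp hr).1 hp).2.1 hc

theorem memLp_tr (hf : M2 f) (hg : M2 g) (hr : 0 < r) (hT : Measurable T) (h : Trc r f g T) :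
    MemLp T 2 (volume.restrict (Ioo (-r) r)) := by
  refine (memLp_two_iff_integrable_sq hT.aestronglyMeasurable).2 ?_
  refine Integrable.mono' (g := fun y => 2 / r * slS 0 r f y + 2 * r * slS 0 r g y)
    (((hf.int_slS 0 r).const_mul _).add ((hg.int_slS 0 r).const_mul _)).integrableOn
    (hT.pow_const 2).aestronglyMeasurable ((ae_restrict_iff' measurableSet_Ioo).2 ?_)
  filter_upwards [ae_ae (est hg hr h r), slice hf] with y a b hy
  have i2 : Integrable fun σ => f (y, σ) ^ 2 := (memLp_two_iff_integrable_sq b.1).1 b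
  have h1 : ∫ _ in Ioo (0 : ℝ) r, T y ^ 2
      ≤ ∫ s in Ioo (0 : ℝ) r, (2 * f (y, s) ^ 2 + 2 * r * slS 0 r g y) := by
    refine integral_mono_of_nonneg (Eventually.of_forall fun _ => sq_nonneg _)
      ((i2.const_mul 2).integrableOn.add (integrableOn_const (by simp)))
      ((ae_restrict_iff' measurableSet_Ioo).2 (a.mono fun s hs hs' => ?_))
    have h2 := hs ((mem_Qp hr).2 ⟨hy, hs'⟩) hs'.2.le
    have h3 := mul_le_mul_of_nonneg_right hs'.2.le (slS_nonneg 0 r g y)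
    simp only at h2 ⊢
    nlinarith [sq_nonneg (2 * f (y, s) - T y)]
  rw [integral_add (i2.const_mul 2).integrableOn (integrableOn_const (by simp)),
    integral_const_mul] at h1
  simp only [integral_const, smul_eq_mul, Measure.real, Measure.restrict_apply_univ,
    Real.volume_Ioo, sub_zero, ENNReal.toReal_ofReal hr.le] at h1
  rw [Real.norm_eq_abs, abs_of_nonneg (sq_nonneg _)]
  refine le_of_mul_le_mul_left (h1.trans_eq ?_) hr
  simp only [slS]
  field_simp

theorem green (hf : M2 f) (hg : M2 g) (hr : 0 < r) (h : Trc r f g T) (hφ : Test (Q r) φ) :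
    ∫ p in Qp 0 r, (f p * pd (ee 1) φ p + g p * φ p) = -∫ y in Ioo (-r) r, T y * φ (y, 0) := by
  have i : Integrable (fun p => f p * pd (ee 1) φ p + g p * φ p)
      ((volume : Measure ℝ).prod (volume : Measure ℝ)) :=
    (hf.int_mul (hφ.pd _).m2).add (hg.int_mul hφ.m2)
  rw [Qp_zero hr.le, ← integral_neg]
  refine (setIntegral_prod _ i.integrableOn).trans
    (integral_congr_ae ((ae_restrict_iff' measurableSet_Ioo).2 ?_))
  filter_upwards [ae_ae h, slice hg] with y a b hy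
  rw [← ibp (ψ := fun s => φ (y, s)) b (hφ.1.comp (contDiff_prodMk_right y)) (hd_snd hφ.1 y) hr
    (hφ.off fun hq => lt_irrefl _ hq.2.2) (T y)]
  refine integral_congr_ae ((ae_restrict_iff' measurableSet_Ioo).2 (a.mono fun s hs hs' => ?_))
  simp only [hs ((mem_Qp hr).2 ⟨hy, hs'⟩)]

theorem exists_tr (hF : FtcS) (hf : M2 f) (hg : M2 g) (hr : 0 < r) (h : WD (Qp 0 r) (ee 1) f g) :
    ∃ T, MemLp T 2 (volume.restrict (Ioo (-r) r)) ∧ Trc r f g T := by
  rw [Qp_zero hr.le] at h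
  obtain ⟨T, hT, h⟩ := (hF _ _ _ _ f g hf hg).1 h
  rw [← Qp_zero hr.le] at h
  exact ⟨T, memLp_tr hf hg hr hT h, h⟩

theorem zero_tr (hF : FtcS) (hf : M2 f) (hg : M2 g) (hr : 0 < r) (h : WD (Q r) (ee 1) f g)
    (hv : Van (Q r \ Qp 0 r) f) : Trc r f g fun _ => 0 := by
  obtain ⟨T, hT, ht⟩ := exists_tr hF hf hg hr (h.mono (Qp_sub 0 r))
  have hv' := h.van_low hg hv
  have key : ∀ φ, Test (Q r) φ → ∫ y in Ioo (-r) r, T y * φ (y, 0) = 0 := fun φ hφ => by
    rw [← neg_eq_zero, ← green hf hg hr ht hφ, setIntegral_eq_integral_of_ae_compl_eq_zero,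
      integral_add (hf.int_mul (hφ.pd _).m2) (hg.int_mul hφ.m2), h φ hφ, neg_add_cancel]
    filter_upwards [hv, hv'] with p a b hp
    by_cases hq : p ∈ Q r
    · rw [a ⟨hq, hp⟩, b ⟨hq, hp⟩, zero_mul, zero_mul, add_zero]
    · rw [hφ.off hq, (hφ.pd _).off hq, mul_zero, mul_zero, add_zero]
  have hI : IntegrableOn T (Ioo (-r) r) := hT.integrable (by norm_num)
  have z : ∀ᵐ y, y ∈ Ioo (-r) r → T y = 0 := by
    refine isOpen_Ioo.ae_eq_zero_of_integral_contDiff_smul_eq_zero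
      hI.locallyIntegrableOn fun β b1 b2 b3 => ?_
    obtain ⟨χ, c1, -, c3⟩ := exists_cut (K := tsupport β ×ˢ {0}) (b2.isCompact.prod isCompact_singleton)
      (isOpen_Q r) fun p hp => ⟨b3 hp.1, by rw [hp.2]; exact ⟨by linarith, hr⟩⟩
    rw [← key _ (c1.smul (b1.comp contDiff_fst)), setIntegral_eq_integral_of_forall_compl_eq_zero]
    · refine integral_congr_ae (Eventually.of_forall fun y => ?_)
      by_cases hy : y ∈ tsupport β
      · simp only [Function.comp, smul_eq_mul,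
          c3.self_of_nhdsSet (y, 0) ⟨hy, rfl⟩, mul_one, mul_comm]
      · simp [image_eq_zero_of_notMem_tsupport hy]
    · intro y hy
      simp [image_eq_zero_of_notMem_tsupport fun h' => hy (b3 h')]
  filter_upwards [ht, ae_fst z] with p a b hp
  rw [a hp, b ((mem_Qp hr).1 hp).1]

theorem uniq (hr : 0 < r) (h : Trc r f g T) (h' : Trc r f g T') :
    ∀ᵐ y, y ∈ Ioo (-r) r → T y = T' y := by
  filter_upwards [ae_ae h, ae_ae h'] with y a b hy
  refine ae_const hr ?_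
  filter_upwards [a, b] with s a b hs
  have hp := (mem_Qp hr).2 ⟨hy, hs⟩
  exact add_right_cancel ((a hp).symm.trans (b hp))

theorem congr (hr : 0 < r) (h : Trc r f g T) (h' : ∀ᵐ p, p ∈ Qp 0 r → f p = f' p ∧ g p = g' p) :
    Trc r f' g' T := by
  filter_upwards [h, h', ae_fst (ae_ae h')] with p a b c hp
  obtain ⟨hy, hs⟩ := (mem_Qp hr).1 hp
  rw [← (b hp).1, a hp]
  congr 1
  refine intervalIntegral.integral_congr_ae (c.mono fun σ hσ hσ' => ?_)
  rw [uIoc_of_le hs.1.le] at hσ'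
  exact (hσ ((mem_Qp hr).2 ⟨hy, hσ'.1, hσ'.2.trans_lt hs.2⟩)).2

theorem comb (hg : M2 g) (hg' : M2 g') (h : Trc r f g T) (h' : Trc r f' g' T') (m m' : ℝ → ℝ) :
    Trc r (fun p => m p.1 * f p + m' p.1 * f' p) (fun p => m p.1 * g p + m' p.1 * g' p)
      fun y => m y * T y + m' y * T' y := by
  filter_upwards [h, h', ae_fst (slice hg), ae_fst (slice hg')] with p a b c d hp
  rw [intervalIntegral.integral_add ((ii c _ _).const_mul _) ((ii d _ _).const_mul _),
    intervalIntegral.integral_const_mul, intervalIntegral.integral_const_mul, a hp, b hp]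
  ring

theorem strip (hg : M2 g) (hr : 0 < r) (h : Trc r f g fun _ => 0) (c : ℝ) :
    ∀ᵐ s, s ∈ Ioo 0 (min c r) → slY (-r) r f s ≤ s * ∫ p in Bx (-r) r 0 c, g p ^ 2 := by
  filter_upwards [ae_ae' (est hg hr h c)] with s a hs
  rw [← hg.slS_int, ← integral_const_mul]
  refine integral_mono_of_nonneg (Eventually.of_forall fun _ => sq_nonneg _)
    ((hg.int_slS 0 c).const_mul s).integrableOn
    ((ae_restrict_iff' measurableSet_Ioo).2 (a.mono fun y hy hy' => ?_))
  simpa using hy ((mem_Qp hr).2 ⟨hy', hs.1, hs.2.trans_le (min_le_right _ _)⟩)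
    (hs.2.le.trans (min_le_left _ _))

theorem cont (hg : M2 g) (hr : 0 < r) (h : Trc r f g fun _ => 0) {F : P → ℝ} (hF : Continuous F)
    (hf : ∀ᵐ p, p ∈ Qp 0 r → F p = f p) {y : ℝ} (hy : y ∈ Ioo (-r) r) : F (y, 0) = 0 := by
  refine closed_ae (C := {y | F (y, 0) = 0}) (isClosed_eq (by fun_prop) continuous_const)
    (by linarith : -r < r) ?_ (Ioo_subset_Icc_self hy)
  filter_upwards [ae_ae (est hg hr h r), ae_ae hf] with y a b hy
  have := closed_ae (C := {s | F (y, s) ^ 2 ≤ s * slS 0 r g y})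
    (isClosed_le (by fun_prop) (by fun_prop)) hr (by
      filter_upwards [a, b] with s a b hs
      have hp := (mem_Qp hr).2 ⟨hy, hs⟩
      simpa [b hp] using a hp hs.2.le) (left_mem_Icc.2 hr.le)
  simpa using this

end Zt

theorem rowZt : OfZt := fun hF _ _ _ hr hf hg =>
  ⟨fun h => by
      obtain ⟨T, a, b⟩ := Zt.exists_tr hF hf hg hr h
      exact ⟨T, a, b, fun _ hφ => Zt.green hf hg hr b hφ⟩,
    Zt.zero_tr hF hf hg hr, fun _ _ => Zt.uniq hr, fun _ _ _ => Zt.congr hr,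
    fun _ _ _ _ m m' hg' h h' => Zt.comb hg hg' h h' m m',
    fun _ h => (Zt.est hg hr h _).mono fun _ a hp => a hp hp.1.2.2.le,
    fun h => ⟨Zt.strip hg hr h, fun _ hF hf _ hy => Zt.cont hg hr h hF hf hy⟩⟩

end Pool.Agent.MP_ed9623_an.H77
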