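import Pool.Agent.MP_ed9623_an.H77.SpecZ

/-! The observed functional is the pressure. -/

open MeasureTheory Filter Topology Set
open scoped ContDiff InnerProductSpace

namespace Pool.Agent.MP_ed9623_an.H77

open H64

namespace Tr2

variable {Ω : Set P}

theorem m2_xt (hΩ : MeasurableSet Ω) (f : L2 Ω) : M2 (xt Ω f) :=
  (memLp_indicator_iff_restrict hΩ).2 (Lp.memLp f)

theorem int_xt (hΩ : MeasurableSet Ω) (f : L2 Ω) (φ : P → ℝ) :
    ∫ x in Ω, f x * φ x = ∫ x, xt Ω f x * φ x := by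
  rw [← integral_indicator hΩ]
  refine integral_congr_ae (Eventually.of_forall fun x => ?_)
  by_cases hx : x ∈ Ω <;> simp [xt, hx]

theorem rhs_eq (hΩ : MeasurableSet Ω) (g u : Fin 2 → L2 Ω) (p : L2 Ω) {φ : Fin 2 → P → ℝ}
    (hφ : ∀ j, Test Ω (φ j)) :
    rhs Ω g u p φ = (∑ j, ∑ i, ∫ x, xt Ω (u j) x * pd (ee i) (pd (ee i) (φ j)) x)
      + tl (fun _ => 0) (fun j => xt Ω (u j)) (fun j => xt Ω (u j)) φ
      + (∫ x, xt Ω p x * (pd (ee 0) (φ 0) x + pd (ee 1) (φ 1) x))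
      + ip (fun j => xt Ω (g j)) φ := by
  have m := m2_xt hΩ
  have i1 := fun j i => (m (u j)).int_mul (((hφ j).pd (ee i)).pd (ee i)).m2
  have i2 : ∀ j i, Integrable fun x => xt Ω (u i) x * xt Ω (u j) x * pd (ee i) (φ j) x :=
    fun j i => ((m (u i)).int_mul ((m (u j)).tmul ((hφ j).pd (ee i)))).congr
      (Eventually.of_forall fun x => by ring)
  have i3 := fun j => (m p).int_mul ((hφ j).pd (ee j)).m2
  have i4 := fun j => (m (g j)).int_mul (hφ j).m2
  have e : (∫ x, xt Ω p x * (pd (ee 0) (φ 0) x + pd (ee 1) (φ 1) x))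
      = ∑ j, ∫ x, xt Ω p x * pd (ee j) (φ j) x := by
    simp only [mul_add]
    rw [integral_add (i3 0) (i3 1), Fin.sum_univ_two]
  rw [e, rhs, tl, ip, ← Finset.sum_add_distrib, ← Finset.sum_add_distrib, ← Finset.sum_add_distrib]
  refine Finset.sum_congr rfl fun j _ => ?_
  simp only [dd_zero]
  have s1 := integrable_finsetSum Finset.univ fun i _ => i1 j i
  have s2 := integrable_finsetSum Finset.univ fun i _ => i2 j i
  rw [← integral_finsetSum _ fun i _ => i1 j i, ← integral_finsetSum _ fun i _ => i2 j i,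
    ← integral_add' s1 s2, ← integral_add' (s1.add s2) (i3 j),
    ← integral_add' ((s1.add s2).add (i3 j)) (i4 j), ← integral_indicator hΩ]
  refine integral_congr_ae (Eventually.of_forall fun x => ?_)
  by_cases hx : x ∈ Ω
  · simp only [xt, indicator_of_mem hx, Fin.sum_univ_two, Pi.add_apply]
    ring
  · simp [xt, hx]

theorem dense_Y0 (Ω : Set P) : Dense {ζ : YY Ω | ζ.1 ∈ Y0 Ω} := by
  refine Subtype.dense_iff.2 fun v hv => closure_mono (fun w hw => ?_) hv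
  exact ⟨⟨w, (Y0 Ω).le_topologicalClosure hw⟩, hw, rfl⟩

end Tr2

open Tr2 in
theorem rowTr2 : OfTr2 := by
  intro Ω g S D u p U hΩ hM hT hU hu t ht
  have mΩ := hΩ.measurableSet
  have hv : ∀ s, 0 < s → ∀ j, vl (U s).1 j =ᵐ[volume] xt Ω (u s j) := fun s hs j => by
    have := hu s hs j
    rwa [hM.ι] at this
  have c := fun ix => (ct_int (m2_xt mΩ (p t))).comp ((ct_co ix).comp
    (continuous_subtype_val (p := fun v => v ∈ Ys Ω)))
  have e : (fun ζ : YY Ω => -∫ x, xt Ω (p t) x * (gj ζ.1 0 0 x + gj ζ.1 1 1 x)) = fun ζ : YY Ω =>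
      -((∫ x, gj ζ.1 0 0 x * xt Ω (p t) x) + ∫ x, gj ζ.1 1 1 x * xt Ω (p t) x) := funext fun ζ => by
    rw [← integral_add ((m2_gj _ _ _).int_mul (m2_xt mΩ _)) ((m2_gj _ _ _).int_mul (m2_xt mΩ _))]
    exact congrArg _ (integral_congr_ae (Eventually.of_forall fun x => by ring))
  refine congrFun (Continuous.ext_on (dense_Y0 Ω) (continuous_const.inner continuous_id)
    (e ▸ ((c (0, some 0)).add (c (1, some 1))).neg) ?_)
  rintro ζ ⟨φ, hφ, hj⟩
  obtain ⟨l, hl⟩ := exists_ip fun j => (hφ j).m2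
  have d1 : HasDerivAt (fun s => l (U s).1) (l (deriv U t).1) t :=
    (l ∘L (Vs Ω).subtypeL).hasFDerivAt.comp_hasDerivAt t (hU.hasDerivAt isOpen_Ioi ht)
  have d2 : rhs Ω g (u t) (p t) φ = l (deriv U t).1 := by
    refine (hT.eq t ht φ hφ).unique (d1.congr_of_eventuallyEq ?_)
    filter_upwards [Ioi_mem_nhds ht] with s hs
    rw [hl, ip_congr (hv s hs) fun _ => EventuallyEq.rfl]
    exact Finset.sum_congr rfl fun j _ => int_xt mΩ _ _
  have d3 : dj (U t).1 ζ.1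
      = -∑ j, ∑ i, ∫ x, xt Ω (u t j) x * pd (ee i) (pd (ee i) (φ j)) x := by
    rw [hj.dj, di, ← Finset.sum_neg_distrib]
    refine Finset.sum_congr rfl fun j _ => ?_
    rw [← Finset.sum_neg_distrib]
    refine Finset.sum_congr rfl fun i _ => ?_
    have := ((Vs_le Ω (U t).2).1.1 j).w i _ ((hφ j).pd (ee i)).top
    rw [dd_zero] at this ⊢
    exact neg_eq_iff_eq_neg.1
      (this.symm.trans (integral_congr_ae ((hv t ht j).mul EventuallyEq.rfl)))
  have d4 : ∫ x, xt Ω (p t) x * (gj ζ.1 0 0 x + gj ζ.1 1 1 x)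
      = ∫ x, xt Ω (p t) x * (pd (ee 0) (φ 0) x + pd (ee 1) (φ 1) x) :=
    integral_congr_ae (EventuallyEq.rfl.mul (((hj 0).2 0).add ((hj 1).2 1)))
  rw [rhs_eq mΩ g (u t) (p t) hφ, hl] at d2
  simp only [obs, inner_sub_left, hM.γY, hM.AY, hM.BY, hM.J, hM.ι]
  rw [d3, d4, hj.tj, tl_congr (hv t ht) (hv t ht), hj.ip, hj.ip]
  have : ip (fun j => (vE (deriv U t).1 j : P → ℝ)) φ = ip (vl (deriv U t).1) φ := rfl
  linarith

end Pool.Agent.MP_ed9623_an.H77
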