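import Pool.Agent.MP_ed9623_an.H77.SpecZ
import Pool.Agent.MP_ed9623_an.H64.Ext
import Pool.Agent.MP_ed9623_an.H64.Limit

/-! Extension across a hyperplane with uniform bounds, and passage to the limit. -/

open MeasureTheory Filter Topology Set
open scoped ContDiff

namespace Pool.Agent.MP_ed9623_an.H77

open H64

namespace RepB

/-- The linear part of the reflections. -/
noncomputable def LL (a : ℝ) : ST →L[ℝ] ST :=
  (ContinuousLinearMap.fst ℝ ℝ (ℝ × ℝ)).prod
    (((ContinuousLinearMap.fst ℝ ℝ ℝ).prod ((1 - a) • ContinuousLinearMap.snd ℝ ℝ ℝ)) ∘L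
      ContinuousLinearMap.snd ℝ ℝ (ℝ × ℝ))

theorem LL_add (a c : ℝ) (z : ST) : LL a z + (0, 0, a * c) = z + (0, 0, a * (c - z.2.2)) := by
  ext <;> simp [LL]
  ring

theorem norm_refl {f : ST → ℝ} (hf : ContDiff ℝ ∞ f) (a c : ℝ) {j k : ℕ} (hj : j ≤ k) (z : ST) :
    ‖iteratedFDeriv ℝ j (fun z : ST => f (z + (0, 0, a * (c - z.2.2)))) z‖
      ≤ ‖iteratedFDeriv ℝ j f (z + (0, 0, a * (c - z.2.2)))‖ * (1 + ‖LL a‖) ^ k := by
  have e : (fun z : ST => f (z + (0, 0, a * (c - z.2.2))))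
      = (fun w : ST => f (w + (0, 0, a * c))) ∘ LL a := funext fun z => by
    simp only [Function.comp, LL_add]
  have h1 : ContDiff ℝ ∞ fun w : ST => f (w + (0, 0, a * c)) := by fun_prop
  rw [e, (LL a).iteratedFDeriv_comp_right h1 z (by exact_mod_cast le_top),
    iteratedFDeriv_comp_add_right, LL_add]
  refine (ContinuousMultilinearMap.norm_compContinuousLinearMap_le _ _).trans
    (mul_le_mul_of_nonneg_left ?_ (norm_nonneg _))
  have := norm_nonneg (LL a)
  rw [Finset.prod_const, Finset.card_univ, Fintype.card_fin]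
  exact (pow_le_pow_left₀ this (by linarith) j).trans (pow_le_pow_right₀ (by linarith) hj)

theorem extend (c : ℝ) (k : ℕ) : ∃ C : ℝ, ∀ f : ST → ℝ, ContDiff ℝ ∞ f → ∃ F : ST → ℝ,
    ContDiff ℝ k F ∧ (∀ z : ST, c < z.2.2 → F z = f z) ∧ ∀ M,
      (∀ z : ST, c < z.2.2 → ∀ j ≤ k, ‖iteratedFDeriv ℝ j f z‖ ≤ M) →
        ∀ z, ∀ j ≤ k, ‖iteratedFDeriv ℝ j F z‖ ≤ C * M := by
  obtain ⟨w, hw⟩ := glue (E := ST) k
  obtain ⟨A, hA⟩ : ∃ A, A = ∑ i ∈ Finset.range (2 * k + 1), |w i| * (1 + ‖LL (i + 2)‖) ^ k :=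
    ⟨_, rfl⟩
  have A0 : 0 ≤ A := hA ▸ Finset.sum_nonneg fun i _ => by positivity
  refine ⟨1 + A, fun f hf => ?_⟩
  have hG := hw (fun q => f (q.1 + (0, 0, q.2))) (fun z => c - z.2.2) (by fun_prop) (by fun_prop)
  have cr : Continuous fun z : ST => z.2.2 := by fun_prop
  have e0 : ∀ z : ST, z + (0, 0, 0) = z := fun z => add_zero z
  simp only [e0] at hG
  refine ⟨_, hG, fun z hz => if_pos (by linarith), fun M hM z j hj => ?_⟩
  have m0 : 0 ≤ M := (norm_nonneg _).trans (hM (0, 0, c + 1) (by simp) 0 (Nat.zero_le _))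
  rcases le_or_gt c z.2.2 with h | h
  · have c0 := (hG.continuous_iteratedFDeriv (by exact_mod_cast hj)).norm
    have o : IsOpenMap fun z : ST => z.2.2 := isOpenMap_snd.comp isOpenMap_snd
    have hz : z ∈ closure {z : ST | c < z.2.2} :=
      o.preimage_closure_subset_closure_preimage (s := Ioi c) (by rw [closure_Ioi]; exact h)
    refine le_trans (b := M) (closure_minimal (fun y hy => ?_) (isClosed_le c0 continuous_const) hz)
      (by nlinarith)
    refine (congrArg norm (EventuallyEq.iteratedFDeriv ℝ (f₂ := f) ?_ j).eq_of_nhds).trans_le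
      (hM y hy j hj)
    filter_upwards [(isOpen_lt continuous_const cr).mem_nhds hy] with z hz
    exact if_pos (sub_nonpos.2 (le_of_lt hz))
  · have cf : ∀ i : ℕ, ContDiff ℝ j fun z : ST => f (z + (0, 0, ((i : ℝ) + 2) * (c - z.2.2))) :=
      fun i => contDiff_infty.1 (by fun_prop) j
    refine (congrArg norm (EventuallyEq.iteratedFDeriv ℝ (f₂ := fun z =>
      ∑ i ∈ Finset.range (2 * k + 1), w i • f (z + (0, 0, ((i : ℝ) + 2) * (c - z.2.2)))) ?_
        j).eq_of_nhds).trans_le ?_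
    · filter_upwards [(isOpen_lt cr continuous_const).mem_nhds h] with z hz
      exact if_neg (not_le.2 (sub_pos.2 hz))
    rw [iteratedFDeriv_sum fun i _ => (cf i).const_smul (w i), Finset.sum_apply]
    refine (norm_sum_le_of_le _ (n := fun i => |w i| * (1 + ‖LL (i + 2)‖) ^ k * M)
      fun i hi => ?_).trans (by rw [← Finset.sum_mul, ← hA]; nlinarith)
    rw [iteratedFDeriv_const_smul_apply' (cf i).contDiffAt, norm_smul, Real.norm_eq_abs, mul_assoc]
    refine mul_le_mul_of_nonneg_left ((norm_refl hf _ c hj z).trans ?_) (abs_nonneg _)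
    rw [mul_comm]
    refine mul_le_mul_of_nonneg_left (hM _ ?_ j hj) (by positivity)
    have := (i.cast_nonneg : (0 : ℝ) ≤ i)
    simp only [Prod.snd_add]
    nlinarith

end RepB

theorem rowRepB : OfRepB := by
  intro c M k f hf hM
  obtain ⟨C, hC⟩ := RepB.extend c (k + 1)
  choose F a b d using fun n => hC (f n) (hf n)
  have h : LB (hyperfilter ℕ) (C * M) (k + 1) F :=
    ⟨a, fun _ => Eventually.of_forall fun n y _ => d n M (hM n) y⟩
  exact ⟨_, hyperfilter ℕ, LB.contDiff k h, Nat.hyperfilter_le_atTop,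
    (h.mono (by omega)).tlu.tendstoLocallyUniformlyOn.congr fun n z hz => b n z hz⟩

end Pool.Agent.MP_ed9623_an.H77
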