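import Pool.Agent.MP_ed9623_an.H77.SpecZ

/-! The case where the half sum vanishes near a boundary point. -/

open MeasureTheory Filter Topology Set
open scoped ContDiff

namespace Pool.Agent.MP_ed9623_an.H77

open H64

namespace TriB

variable {N Ω : Set P} {u u' w w' ζ : Fin 2 → P → ℝ} {d d' : Fin 2 → Fin 2 → P → ℝ}

theorem ip_loc (hζ : ∀ j, Test N (ζ j)) (h : ∀ j, ∀ᵐ p, p ∈ N → u j p = u' j p) :
    ip u ζ = ip u' ζ :=
  Finset.sum_congr rfl fun j _ => int_test_congr (fun _ => (hζ j).off) (h j)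

theorem di_loc (hζ : ∀ j, Test N (ζ j)) (h : ∀ j i, ∀ᵐ p, p ∈ N → d j i p = d' j i p) :
    di (fun _ => 0) d ζ = di (fun _ => 0) d' ζ :=
  Finset.sum_congr rfl fun j _ => Finset.sum_congr rfl fun i _ =>
    int_test_congr (fun _ => ((hζ j).dd Gam.zero i).off) (h j i)

theorem tl_loc (hζ : ∀ j, Test N (ζ j))
    (h : ∀ j i, ∀ᵐ p, p ∈ N → u i p * w j p = u' i p * w' j p) :
    tl (fun _ => 0) u w ζ = tl (fun _ => 0) u' w' ζ :=
  Finset.sum_congr rfl fun j _ => Finset.sum_congr rfl fun i _ =>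
    int_test_congr (f := fun p => u i p * w j p) (g := fun p => u' i p * w' j p)
      (fun _ => ((hζ j).dd Gam.zero i).off) (h j i)

theorem ip_van (hζ : ∀ j, Test N (ζ j)) (h : ∀ j, Van N (u j)) : ip u ζ = 0 := by
  rw [ip_loc (u' := fun _ _ => 0) hζ h]; simp [ip]

theorem di_van (hζ : ∀ j, Test N (ζ j)) (h : ∀ j i, Van N (d j i)) :
    di (fun _ => 0) d ζ = 0 := by
  rw [di_loc (d' := fun _ _ _ => 0) hζ h]; simp [di]

theorem tl_van (hζ : ∀ j, Test N (ζ j)) (h : ∀ j, Van N (u j)) (w : Fin 2 → P → ℝ) :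
    tl (fun _ => 0) u w ζ = 0 ∧ tl (fun _ => 0) w u ζ = 0 := by
  rw [tl_loc (u' := fun _ _ => 0) (w' := fun _ _ => 0) hζ fun j i =>
      Eventually.mono (h i) fun p a hp => by rw [a hp, zero_mul, zero_mul],
    tl_loc (u := w) (u' := fun _ _ => 0) (w' := fun _ _ => 0) hζ fun j i =>
      Eventually.mono (h j) fun p a hp => by rw [a hp, mul_zero, zero_mul]]
  simp [tl]

theorem van_all {a : ℝ → E6} {I : Set ℝ} (hN : IsOpen N) (hI : IsOpen I) (ha : ∀ t, a t ∈ VZ Ω)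
    (h : ∀ t ∈ I, ∀ j, Van N (vl (a t) j)) {t : ℝ} (ht : t ∈ I) :
    (∀ j i, Van N (gj (a t) j i)) ∧ ∀ j, Van N (vl (deriv a t) j) :=
  ⟨fun j => ((ha t).1.1 j).van hN (subset_univ _) Gam.zero (h t ht j), fun j =>
    deriv_mem (isClosed_VanS N (j, none)) (mem_of_superset (hI.mem_nhds ht) fun s hs => h s hs j)⟩

end TriB

open TriB in
theorem rowTriB : OfTriB := by
  intro hTh hZ1 hZ2 hCl hTa hAn ρ x τ γ r R ε g a w I hρ hx hc hC hb hP hI ⟨t₀, ht₀⟩ hε hv
  have H : ∀ t ∈ I, ∀ ζ, (∀ j, Test ({x | ρ x < 0} ∩ Metric.ball x ε) (ζ j)) →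
      ip (vl (deriv w t)) ζ + di (fun _ => 0) (gj (w t)) ζ = 0 := fun t ht ζ hζ => by
    have := hP.e1 t ζ fun j => (hζ j).mono inter_subset_left
    have b := tl_van (fun j => (hζ j).mono inter_subset_right) (hv t ht) (vl (w t))
    rwa [E1, b.1, b.2, sub_zero, sub_zero] at this
  have H1 : ∀ t ∈ I, ∀ j φ, Test ({x | ρ x < 0} ∩ Metric.ball x ε) φ →
      (∫ x, vl (deriv w t) j x * φ x) + ∑ i, ∫ x, gj (w t) j i x * pd (ee i) φ x = 0 := by
    intro t ht j φ hφ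
    have := H t ht (Pi.single j φ) fun l => by
      by_cases hl : l = j
      · rw [hl, Pi.single_eq_same]; exact hφ
      · rw [Pi.single_eq_of_ne hl]; exact Test.zero _
    have z : ∀ e : P, pd e (0 : P → ℝ) = 0 := pd_zero_fun
    fin_cases j <;> simpa [ip, di, dd_zero, z] using this
  have H2 : ∀ t ∈ I, ∀ θ, Test ({x | ρ x < 0} ∩ Metric.ball x ε) θ →
      tl (fun _ => 0) (vl (w t)) (vl (w t)) (perp (fun _ => 0) θ)
        = -ip g (perp (fun _ => 0) θ) := by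
    intro t ht θ hθ
    have hζ := hθ.perp Gam.zero
    have hζ' := fun j => (hζ j).mono inter_subset_right
    obtain ⟨v1, v2⟩ := van_all Metric.isOpen_ball hI hP.ma hv ht
    have := (hP.p1 t).eq θ (hθ.mono inter_subset_left)
    rw [E2, di_loc (d' := gj (w t)) hζ' fun j i => Eventually.mono (v1 j i) fun p b hp => by
        rw [b hp, zero_add],
      tl_loc (u' := vl (w t)) (w' := vl (w t)) hζ' fun j i => by
        filter_upwards [hv t ht i, hv t ht j] with p b c hp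
        rw [b hp, c hp, zero_add, zero_add],
      ip_loc (u' := fun j p => g j p - vl (deriv w t) j p) hζ' fun j =>
        Eventually.mono (v2 j) fun p b hp => by rw [b hp, zero_add]] at this
    have e : ip (fun j p => g j p - vl (deriv w t) j p) (perp (fun _ => 0) θ)
        = ip g (perp (fun _ => 0) θ) - ip (vl (deriv w t)) (perp (fun _ => 0) θ) := by
      rw [ip, ip, ip, ← Finset.sum_sub_distrib]
      refine Finset.sum_congr rfl fun j _ => ?_
      simp only [sub_mul]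
      exact integral_sub ((hP.mg j).int_mul (hζ j).m2) ((m2_vl _ j).int_mul (hζ j).m2)
    linarith [H t ht _ hζ]
  obtain ⟨r₁, r0, r1, hr⟩ := hC.small hε
  obtain ⟨-, -, ⟨T, hT⟩, -⟩ := hTh x τ γ hC.un hC.gam
  obtain ⟨δ, δ0, hδ⟩ := Metric.isOpen_iff.1 hI t₀ ht₀
  obtain ⟨ε', W, e0, e1, hW⟩ := hZ2 ρ x τ γ (r₁ / 2) t₀ (min δ ε) w I T hρ.continuous
    (hC.mono (by linarith) (by linarith)) (fun p hp => hb p (Q_mono (by linarith) hp)) hP.sw
    (fun t => (hP.mw t).1) hI ht₀ (lt_min δ0 hε) hT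
    (hZ1 _ x τ γ r₁ (r₁ / 2) w I T (hC.mono r0 r1) (by linarith) (by linarith) hP.sw
      (fun t => (hP.mw t).1) hI hT fun t ht j φ hφ =>
        H1 t ht j φ (hφ.mono (inter_subset_inter_right _ hr)))
  have s1 : Metric.ball t₀ ε' ⊆ I := (Metric.ball_subset_ball (e1.trans (min_le_left _ _))).trans hδ
  have s2 : {x | ρ x < 0} ∩ Metric.ball x ε' ⊆ {x | ρ x < 0} ∩ Metric.ball x ε :=
    inter_subset_inter_right _ (Metric.ball_subset_ball (e1.trans (min_le_right _ _)))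
  obtain ⟨hZ, hG⟩ := hCl ρ x t₀ ε' w W g hρ.continuous hP.sw
    (fun t => ⟨⟨(hP.mw t).1.1, fun _ => Eventually.of_forall fun p hp => absurd (mem_univ p) hp⟩,
      (hP.mw t).2⟩) hW (fun t ht j φ hφ => H1 t (s1 ht) j φ (hφ.mono s2))
    fun t ht θ hθ => H2 t (s1 ht) θ (hθ.mono s2)
  rcases hTa ρ x t₀ ε' W hρ hx hc e0 hZ with h | ⟨η, η0, h⟩
  · exact Or.inr ⟨h, ε', e0, _, hAn ρ x t₀ ε' W hρ.continuous hZ t₀ (Metric.mem_ball_self e0),
      hG t₀ (Metric.mem_ball_self e0)⟩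
  refine Or.inl ⟨Metric.ball t₀ ε', min η ε', Metric.isOpen_ball, ⟨t₀, Metric.mem_ball_self e0⟩, s1,
    lt_min η0 e0, fun t ht ζ hζ => ?_⟩
  have v0 : ∀ t ∈ Metric.ball t₀ ε', ∀ j, Van (Metric.ball x (min η ε')) (vl (w t) j) := by
    intro t ht j
    filter_upwards [hW.ae j t ht, (hP.mw t).1.2 (j, none)] with p b c hp
    by_cases hq : ρ p < 0
    · rw [← b ⟨hq, Metric.ball_subset_ball (min_le_right _ _) hp⟩]
      exact h (t, p) ht (Metric.ball_subset_ball (min_le_left _ _) hp) hq j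
    · exact c hq
  obtain ⟨v1, v2⟩ := van_all Metric.isOpen_ball Metric.isOpen_ball hP.mw v0 ht
  have b := tl_van hζ (v0 t ht) (vl (a t))
  rw [E1, b.1, b.2, ip_van hζ v2, di_van hζ v1]
  norm_num

end Pool.Agent.MP_ed9623_an.H77
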